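import Pool.Agent.Lib.MP_64b69f_gt.Comp

set_option autoImplicit false

/-! Companion of the frozen statement S13288 (MP_64b69f_gt, Q1): a compact monolithic space `X`
such that no subspace of a Sigma-product of real lines is the image of `C_p(X)` under a
continuous bijection. -/

namespace Pool.Agent.Results.MP_64b69f_gt.NoCondensation

open Set Topology Cardinal

universe u v

/-- `N` is a network of `Y`: every open set of `Y` is a union of members of `N`. -/
def IsNetwork {Y : Type v} [TopologicalSpace Y] (N : Set (Set Y)) : Prop :=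
  ∀ U : Set Y, IsOpen U → ∃ S : Set (Set Y), S ⊆ N ∧ ⋃₀ S = U

/-- The network weight: the least cardinality of a network. -/
noncomputable def nw (Y : Type v) [TopologicalSpace Y] : Cardinal.{v} :=
  sInf {κ : Cardinal.{v} | ∃ N : Set (Set Y), IsNetwork N ∧ #N = κ}

/-- Monolithic: `nw (closure A) ≤ max |A| ω` for every `A ⊆ X`. -/
def Monolithic (X : Type v) [TopologicalSpace X] : Prop :=
  ∀ A : Set X, nw (closure A) ≤ max #A ℵ₀

/-- Scattered: every nonempty subset has an isolated point. -/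
def Scattered (X : Type v) [TopologicalSpace X] : Prop :=
  ∀ A : Set X, A.Nonempty → ∃ x ∈ A, ∃ U : Set X, IsOpen U ∧ U ∩ A = {x}

/-- `C_p(X)`: the continuous real functions on `X` with the topology of pointwise convergence
(the subspace topology from the product of the real lines over the points of `X`). -/
abbrev Cp (X : Type v) [TopologicalSpace X] : Type v := {f : X → ℝ // Continuous f}

/-- The Sigma-product of real lines over `T`. -/
def SigmaProduct (T : Type u) : Set (T → ℝ) := {x | {t : T | x t ≠ 0}.Countable}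

theorem network_singletons {Y : Type v} [TopologicalSpace Y] :
    IsNetwork (Set.range (fun y : Y => ({y} : Set Y))) := by
  intro U _
  refine ⟨(fun y : Y => ({y} : Set Y)) '' U, ?_, ?_⟩
  · rintro _ ⟨y, _, rfl⟩
    exact ⟨y, rfl⟩
  · ext x
    simp

theorem nw_le_mk (Y : Type v) [TopologicalSpace Y] : nw Y ≤ #Y := by
  have h1 : nw Y ≤ #(Set.range (fun y : Y => ({y} : Set Y))) :=
    csInf_le' ⟨_, network_singletons, rfl⟩
  exact h1.trans Cardinal.mk_range_le

open Pool.Agent.Lib.MP_64b69f in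
theorem scattered_onePoint {K : Type} [LinearOrder K] [WellFoundedLT K] {r : K → K → Prop}
    {E : Set K} {h : IsTree r} : Scattered (OnePoint (P r E h)) := by
  intro A hA
  by_cases hex : ∃ x : P r E h, (x : OnePoint (P r E h)) ∈ A
  · obtain ⟨k, ⟨z, hz, hzA⟩, hmin⟩ := WellFounded.has_min (wellFounded_lt (α := K))
      {k | ∃ x : P r E h, val x = k ∧ (x : OnePoint (P r E h)) ∈ A} (by
        obtain ⟨x, hx⟩ := hex
        exact ⟨val x, x, rfl, hx⟩)
    refine ⟨z, hzA, _, (clopen_coe z).isOpen, ?_⟩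
    ext y
    constructor
    · rintro ⟨⟨x, hx, rfl⟩, hy⟩
      rcases hx with hx | hx
      · exact absurd (h.lt _ _ hx) (fun hlt => hmin (val x) ⟨x, rfl, hy⟩ (hz ▸ hlt))
      · rw [hx]; rfl
    · intro hy
      rw [Set.mem_singleton_iff] at hy
      subst hy
      exact ⟨⟨z, self_mem_KK z, rfl⟩, hzA⟩
  · obtain ⟨y, hy⟩ := hA
    refine ⟨y, hy, Set.univ, isOpen_univ, ?_⟩
    ext w
    constructor
    · rintro ⟨_, hw⟩
      induction w using OnePoint.rec with
      | infty =>
        induction y using OnePoint.rec with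
        | infty => rfl
        | coe y => exact absurd ⟨y, hy⟩ hex
      | coe w => exact absurd ⟨w, hw⟩ hex
    · intro hw
      rw [Set.mem_singleton_iff] at hw
      subst hw
      exact ⟨Set.mem_univ _, hy⟩

theorem result :
    ∃ (X : Type) (_ : TopologicalSpace X), CompactSpace X ∧ T2Space X ∧ Monolithic X ∧
      (∀ A : Set X, #(closure A) ≤ max #A ℵ₀) ∧ Scattered X ∧ #X ≤ ℵ_ 3 ∧
      (∀ (T : Type u) (Z : Set (T → ℝ)), Z ⊆ SigmaProduct T →
        ¬ ∃ φ : Cp X → Z, Continuous φ ∧ Function.Bijective φ) ∧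
      (∀ C : Set (Cp X), (∀ f : Cp X, (∀ x : X, f.1 x = 0 ∨ f.1 x = 1) → f ∈ C) →
        ∀ (T : Type u) (Z : Set (T → ℝ)), Z ⊆ SigmaProduct T →
          ¬ ∃ φ : C → Z, Continuous φ ∧ Function.Bijective φ) := by
  classical
  have hω : ℵ₀ ≤ (ℵ₁ : Cardinal.{0}) := Cardinal.aleph0_lt_aleph_one.le
  obtain ⟨Λ, _, _, hΛ, hΛc⟩ := Pool.Agent.Lib.MP_64b69f.exists_reg ℵ₁ hω
  have hκ : ℵ₁ ≤ Order.succ (ℵ₁ : Cardinal.{0}) := Order.le_succ _
  obtain ⟨K, _, _, hK, hKc⟩ := Pool.Agent.Lib.MP_64b69f.exists_reg (Order.succ ℵ₁) (hω.trans hκ)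
  by_contra hcon
  refine Pool.Agent.Lib.MP_64b69f.Comp.main_aux2.{u} hκ hΛ hΛc hK (fun r E h => ?_)
  by_contra hH
  refine hcon ⟨OnePoint (Pool.Agent.Lib.MP_64b69f.P r E h), inferInstance, inferInstance,
    inferInstance, ?_, Pool.Agent.Lib.MP_64b69f.mk_closure_onePoint_le, scattered_onePoint, ?_, ?_⟩
  · intro A
    exact (nw_le_mk _).trans (Pool.Agent.Lib.MP_64b69f.mk_closure_onePoint_le A)
  · have h3 : Order.succ (Order.succ (ℵ₁ : Cardinal.{0})) = ℵ_ 3 := by
      rw [Cardinal.succ_aleph, Cardinal.succ_aleph]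
      norm_num
    have h4 : #(Pool.Agent.Lib.MP_64b69f.P r E h) ≤ ℵ_ 3 := by
      rw [← h3, ← hKc]
      exact Cardinal.mk_subtype_le _
    have h5 : (1 : Cardinal.{0}) ≤ ℵ_ 3 := Cardinal.one_le_aleph0.trans (Cardinal.aleph0_le_aleph 3)
    calc #(OnePoint (Pool.Agent.Lib.MP_64b69f.P r E h))
        = #(Pool.Agent.Lib.MP_64b69f.P r E h) + 1 := Cardinal.mk_option
      _ ≤ ℵ_ 3 + ℵ_ 3 := add_le_add h4 h5
      _ = ℵ_ 3 := Cardinal.add_eq_self (Cardinal.aleph0_le_aleph 3)
  · have key : ∀ C : Set (Cp (OnePoint (Pool.Agent.Lib.MP_64b69f.P r E h))),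
        (∀ f : Cp (OnePoint (Pool.Agent.Lib.MP_64b69f.P r E h)),
          (∀ x, f.1 x = 0 ∨ f.1 x = 1) → f ∈ C) →
        ∀ (T : Type u) (Z : Set (T → ℝ)), Z ⊆ SigmaProduct T →
          ¬ ∃ φ : C → Z, Continuous φ ∧ Function.Bijective φ := by
      rintro C hC T Z hZ ⟨φ, hφ, hbij⟩
      let j : Pool.Agent.Lib.MP_64b69f.Comp.Two (OnePoint (Pool.Agent.Lib.MP_64b69f.P r E h)) → C :=
        fun g => ⟨⟨g.1, g.2.1⟩, hC _ g.2.2⟩
      have hj : Continuous j :=
        Continuous.subtype_mk (Continuous.subtype_mk continuous_subtype_val _) _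
      have hji : Function.Injective j := by
        intro g g' hgg
        apply Subtype.ext
        exact congrArg (fun c : C => c.1.1) hgg
      refine hH ⟨T, fun g => (φ (j g)).1, ?_, ?_, ?_⟩
      · exact continuous_subtype_val.comp (hφ.comp hj)
      · intro g g' hgg
        exact hji (hbij.1 (Subtype.ext hgg))
      · intro g
        exact hZ (φ (j g)).2
    refine ⟨?_, key⟩
    rintro T Z hZ ⟨φ, hφ, hbij⟩
    refine key Set.univ (fun _ _ => Set.mem_univ _) T Z hZ ⟨fun c => φ c.1, ?_, ?_⟩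
    · exact hφ.comp continuous_subtype_val
    · exact ⟨fun c c' hcc => Subtype.ext (hbij.1 hcc), fun z => by
        obtain ⟨c, hc⟩ := hbij.2 z
        exact ⟨⟨c, Set.mem_univ _⟩, hc⟩⟩

end Pool.Agent.Results.MP_64b69f_gt.NoCondensation
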